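import Mathlib
import Pool.Agent.R582.GG.Final
import Pool.Agent.R582.ZZ.MA

/-!
# MP_6e1b89_gt, Q1: `add(S₁(Γ,Γ)) < 𝔟` is consistent
-/

namespace Pool.Agent.Results.MP_6e1b89_gt.ConsistentlyLess

open Cardinal Set Filter MeasureTheory
open Pool.Agent.R582.Rand (MAlg)
open Pool.Agent.R582.GG
open Pool.Agent.R582.ZZ (MartinAxiom)

/-- (1) Let `W` be a nonempty linearly ordered set in which countable sets have strict upper bounds and
such that all families of functions from `ℕ` to `ℕ` indexed by `W` are bounded modulo finite sets. Then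
every condition of the measure algebra of `[0,1] ^ (W × W)` (adding random reals) forces `Hyp` for `W`,
the set of names of points of the Cantor space and the relation `e` depends on the coordinates with
first component at most `w` only. (2) If `ℵ₁ < 𝔟` then there is such a `W` with `ℵ₁` elements.
(3) Martin's axiom and `ℵ₁ < 𝔠` imply `ℵ₁ < 𝔟`. (4) In ZFC, `Hyp W E R` implies that
`add(S₁(Γ,Γ)) < 𝔟`; moreover `add(S₁(Γ,Γ)) ≤ |W| < 𝔟`. -/
theorem result :
    (∀ (W : Type) [LinearOrder W] [Nonempty W], (∀ f : ℕ → W, ∃ w, ∀ n, f n < w) →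
      (∀ F : W → ℕ → ℕ, ∃ g : ℕ → ℕ, ∀ w, ∀ᶠ n in atTop, F w n ≤ g n) →
      ∀ p : MAlg (mu (W × W)), p ∈ HypN (MAlg (mu (W × W))) W (EE (W × W)) (RR W)) ∧
    (ℵ_ 1 < bb → ∃ (W : Type) (_ : LinearOrder W), Nonempty W ∧ #W = ℵ_ 1 ∧
      (∀ f : ℕ → W, ∃ w, ∀ n, f n < w) ∧
      ∀ F : W → ℕ → ℕ, ∃ g : ℕ → ℕ, ∀ w, ∀ᶠ n in atTop, F w n ≤ g n) ∧
    (MartinAxiom → ℵ_ 1 < (𝔠 : Cardinal.{0}) → ℵ_ 1 < bb) ∧
    (∀ (W E : Type) (R : W → E → Prop), Hyp W E R → addGG < bb ∧ addGG ≤ #W ∧ #W < bb) := by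
  refine ⟨fun W _ _ hb hW p => forces hb hW p, fun h => ?_, fun hMA hCH => ?_,
    fun W E R h => ⟨h.add_lt_bb, h.add_le, h.lt_bb⟩⟩
  · have hW : #(ℵ_ 1 : Cardinal.{0}).ord.ToType = ℵ_ 1 := Cardinal.mk_ord_toType _
    have hne : Nonempty (ℵ_ 1 : Cardinal.{0}).ord.ToType := by
      rw [← Cardinal.mk_ne_zero_iff, hW]
      exact (Cardinal.aleph_pos 1).ne'
    refine ⟨(ℵ_ 1 : Cardinal.{0}).ord.ToType, inferInstance, hne, hW, fun f => ?_, fun F => ?_⟩
    · by_contra hcon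
      push Not at hcon
      have h1 : (⋃ n, Iic (f n)) = (univ : Set (ℵ_ 1 : Cardinal.{0}).ord.ToType) := by
        refine eq_univ_of_forall fun w => ?_
        obtain ⟨n, hn⟩ := hcon w
        exact mem_iUnion.2 ⟨n, hn⟩
      have h2 : ∀ n, (Iic (f n)).Countable := by
        intro n
        rw [← Set.Iio_insert]
        refine Set.Countable.insert _ ?_
        have h4 : #(Iio (f n)) < ℵ_ 1 := by
          simpa using Cardinal.mk_Iio_lt (f n) (by simp)
        exact Cardinal.le_aleph0_iff_set_countable.1 (Cardinal.lt_aleph_one_iff.1 h4)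
      have h3 := countable_iUnion h2
      rw [h1, ← Cardinal.le_aleph0_iff_set_countable, Cardinal.mk_univ, hW] at h3
      exact absurd h3 (not_le.2 Cardinal.aleph0_lt_aleph_one)
    · by_contra hcon
      push Not at hcon
      refine absurd h (not_lt.2 ?_)
      rw [← hW]
      refine (csInf_le' (s := {κ : Cardinal.{0} | ∃ F : Set (ℕ → ℕ), #F = κ ∧
        ∀ g : ℕ → ℕ, ∃ f ∈ F, ¬ ∀ᶠ n in atTop, f n ≤ g n}) ⟨range F, rfl, fun g => ?_⟩).trans
        Cardinal.mk_range_le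
      obtain ⟨w, hw⟩ := hcon g
      refine ⟨F w, ⟨w, rfl⟩, fun h5 => ?_⟩
      obtain ⟨n, hn1, hn2⟩ := (hw.and_eventually h5).exists
      exact absurd hn2 (not_le.2 hn1)
  · by_contra hcon
    rw [not_lt] at hcon
    obtain ⟨F, hF, hF2⟩ := bb_mem
    obtain ⟨g, hg⟩ := hMA.bounded (ι := F) ((hF.le.trans hcon).trans_lt hCH) fun f => f.1
    obtain ⟨f, hf, hf2⟩ := hF2 g
    exact hf2 (eventually_atTop.2 (hg ⟨f, hf⟩))

end Pool.Agent.Results.MP_6e1b89_gt.ConsistentlyLess
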